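import Pool.Agent.H23.DF.TargetsA
import Pool.Agent.H27.TM.TargetsA
import Pool.Agent.H29.DW.Tools
import Pool.Agent.H29.TC.Targets
import Pool.Agent.H23.LC.Targets
import Pool.Agent.H23.LB.Targets

/-!
MP_52e316_nt, board dmf_modules, row QBP: the mean square of the first sums over a family of boxes
and cosets, friable conductors (after Pool/Agent/H18/DMQ/QBP.lean).
-/

set_option autoImplicit false

open NumberField NumberField.InfinitePlace NumberField.Units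
  NumberField.Units.dirichletUnitTheorem MeasureTheory Set Filter Complex
open scoped nonZeroDivisors ENNReal

namespace Pool.Agent.H18.DF.QBP

open Pool.Agent.H25.HK Pool.Agent.H23.LB Pool.Agent.H23.LC
open Pool.Agent.H28.RC (Rep ft idl)
open Pool.Agent.H29.DW (dg Rl lf wv Pos Wg cpar Ci om zs rv Wt an_eq norm_aq rv_iff le_norm_cpar
  norm_cpar_le one_le_Ci sum_mult PrG)
open Pool.Agent.H31.SW (EE itg FF HD DB DS dif Pf GG G2 DD PP pF dK pz ps Tf WG bz W_UP W_WL)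
open Pool.Agent.H31.SX (LK)
open Pool.Agent.H29.TC (Gn LC)
open Pool.Agent.H27.TM (Cls)
open Pool.Agent.H23.DM (SpE LoC Lab QB)
open Pool.Agent.H23.DF (SK Kq F_QI F_QBP)

private theorem norm_EE (z : ℂ) : ‖EE z‖ = 1 := by
  unfold EE
  rw [← Complex.ofReal_neg]
  exact Complex.norm_exp_ofReal_mul_I _

private theorem pz_norm (r : Bool) (x : ℂ) : ‖pz r x‖ ≤ 1 := by
  unfold pz
  rw [Complex.norm_real, Real.norm_eq_abs, abs_of_nonneg bz.nonneg]
  exact bz.le_one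

private theorem pz_zero (r : Bool) (x : ℂ) (h : 1 / 16 < ‖x‖) : pz r x = 0 := by
  unfold pz
  have h1 : bz x = 0 := by
    refine bz.zero_of_le_dist ?_
    rw [dist_zero_right]
    show (1 : ℝ) / 10000 ≤ ‖x‖
    linarith
  rw [h1, Complex.ofReal_zero]

section

variable {K : Type} [Field K] [NumberField K]

private theorem Tf_pz (c : InfinitePlace K → ℂ) : Tf (fun v => GG (pz (rv v)) (c v)) := by
  refine ⟨fun v => ?_, fun v w => ?_, fun v w hw => ?_⟩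
  · unfold GG EE pz
    have h1 : Measurable fun w : ℂ => ((bz (w - 1) : ℝ) : ℂ) :=
      Complex.measurable_ofReal.comp
        (bz.continuous.measurable.comp (measurable_id.sub_const 1))
    refine Measurable.mul ?_ h1
    refine Complex.measurable_exp.comp ?_
    refine Measurable.mul_const ?_ _
    refine Measurable.neg ?_
    refine Complex.measurable_ofReal.comp (Complex.measurable_re.comp ?_)
    exact Measurable.const_mul Complex.measurable_log _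
  · simp only [GG]
    rw [norm_mul, norm_EE, one_mul]
    exact pz_norm _ _
  · simp only [GG]
    rw [pz_zero _ _ hw, mul_zero]

private theorem ec_norm (ν : InfinitePlace K → ℝ) (z : logSpace K) : ‖ec K ν z‖ = 1 := by
  unfold ec
  rw [← Complex.ofReal_neg]
  exact Complex.norm_exp_ofReal_mul_I _

private theorem ek_norm (k : InfinitePlace K → ℤ) (θ : InfinitePlace K → ℝ) : ‖ek k θ‖ = 1 := by
  unfold ek
  rw [norm_prod]
  refine Finset.prod_eq_one fun v _ => ?_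
  rw [norm_zpow, an_eq, norm_aq, one_zpow]

private theorem one_le_Nf {I : Ideal (𝓞 K)} (hI : I ≠ ⊥) : 1 ≤ Nf K I := by
  unfold Nf
  have : Ideal.absNorm I ≠ 0 := fun h => hI (Ideal.absNorm_eq_zero_iff.1 h)
  exact_mod_cast Nat.one_le_iff_ne_zero.2 this

private theorem one_le_disc : 1 ≤ |(discr K : ℝ)| := by
  have h := Int.one_le_abs (discr_ne_zero K)
  exact_mod_cast h

private theorem one_le_tor : (1 : ℝ) ≤ (torsionOrder K : ℝ) := by
  exact_mod_cast Nat.one_le_iff_ne_zero.2 (NeZero.ne _)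

private theorem Ci_le_PP {n : ℕ} (hn : Module.finrank ℚ K = n) (k : InfinitePlace K → ℤ)
    (ν : InfinitePlace K → ℝ) (t : ℝ)
    (hk : ∀ v : InfinitePlace K, v.IsReal → k v = 0 ∨ k v = 1) :
    Ci k ν t ≤ 3 ^ n * PP (fun v => 1 + ‖cpar k ν t v‖) := by
  unfold PP Ci
  rw [← sum_mult hn, ← Finset.prod_pow_eq_pow_sum, ← Finset.prod_mul_distrib]
  refine Finset.prod_le_prod (fun v _ => by positivity) fun v _ => ?_
  rw [← mul_pow]
  refine pow_le_pow_left₀ (by positivity) ((le_norm_cpar k ν t hk v).trans ?_) _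
  have h1 : max 1 ‖cpar k ν t v‖ ≤ 1 + ‖cpar k ν t v‖ :=
    max_le (by have := norm_nonneg (cpar k ν t v); linarith) (by linarith)
  linarith

private theorem Wt_bound {κ X B : ℝ} {v : ℝ → ℂ} (h : Wt κ X B v) :
    ∃ C : ℝ, ∀ x : ℝ, 1 ≤ x → ‖v x‖ ≤ C * x ^ (-(3 / 2) : ℝ) := by
  obtain ⟨g, hgm, hg, hv⟩ := h 1 (Or.inr rfl)
  have hi : Integrable (fun y : ℝ => Real.exp (-(1 / 4) * y ^ 2)) :=
    integrable_exp_neg_mul_sq (by norm_num)
  refine ⟨B * X ^ (1 : ℝ) * ∫ y : ℝ, Real.exp (-(1 / 4) * y ^ 2), fun x hx => ?_⟩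
  have hx0 : 0 < x := by linarith
  rw [hv x hx0]
  have h1 : ∀ y : ℝ, ‖g y * (x : ℂ) ^ (-(1 / 2 + (1 : ℝ) + y * I : ℂ))‖ ≤
      (B * X ^ (1 : ℝ) * x ^ (-(3 / 2) : ℝ)) * Real.exp (-(1 / 4) * y ^ 2) := by
    intro y
    have h2 : (-(1 / 2 + (1 : ℝ) + y * I : ℂ)).re = -(3 / 2) := by
      simp
      norm_num
    rw [norm_mul, Complex.norm_cpow_eq_rpow_re_of_pos hx0, h2]
    have h3 := hg y
    have e : -y ^ 2 / 4 = -(1 / 4) * y ^ 2 := by ring
    rw [e] at h3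
    calc _ ≤ (B * X ^ (1 : ℝ) * Real.exp (-(1 / 4) * y ^ 2)) * x ^ (-(3 / 2) : ℝ) := by
          gcongr
      _ = _ := by ring
  have h4 := norm_integral_le_of_norm_le (hi.const_mul (B * X ^ (1 : ℝ) * x ^ (-(3 / 2) : ℝ)))
    (Filter.Eventually.of_forall h1)
  calc _ ≤ _ := h4
    _ = _ := by
      rw [integral_const_mul]
      ring

private theorem sum_int_le {ι α : Type} [Fintype ι] [MeasurableSpace α] (μ : Measure α)
    (S : Set α) (F : ι → α → ℂ) (G : ι → α → ℝ) (h : ∀ c a, ‖F c a‖ = G c a) :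
    ENNReal.ofReal ‖∑ c, ∫ p in S, F c p ∂μ‖ ≤
      ∑ c, ∫⁻ p in S, ENNReal.ofReal (G c p) ∂μ := by
  rw [ofReal_norm]
  refine (enorm_sum_le _ _).trans (Finset.sum_le_sum fun c _ => ?_)
  refine (enorm_integral_le_lintegral_enorm _).trans (le_of_eq ?_)
  refine lintegral_congr fun a => ?_
  rw [← ofReal_norm, h]

/-- a generator modulo a smaller ideal is a generator modulo a larger one -/
private theorem Gn_mono {f g : Ideal (𝓞 K)} {M : FI K} {x₀ : K} (h : f ≤ g) (hG : Gn f M x₀) :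
    Gn g M x₀ := by
  refine ⟨hG.mem, hG.ne, fun y hy => ?_, fun a j hj => hG.iff a j (h.trans hj)⟩
  obtain ⟨a, ha, hya⟩ := hG.gen y hy
  refine ⟨a, ha, ?_⟩
  have h1 : ((f : FI K) * M) ≤ ((g : FI K) * M) := by
    gcongr
  exact h1 hya

private theorem QB_nonneg (k κ : Ideal (𝓞 K)) {τ H : InfinitePlace K → ℝ}
    (h : ∀ v, 1 ≤ H v ∧ 1 ≤ τ v) {R : ℝ} (hR : 0 ≤ R) : 0 ≤ QB k κ τ H R := by
  have h1 : 0 ≤ PP H := by
    unfold PP
    exact Finset.prod_nonneg fun v _ => pow_nonneg (by linarith [(h v).1]) _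
  have h2 : 0 ≤ PP (fun v => max (τ v) (H v ^ 3)) := by
    unfold PP
    exact Finset.prod_nonneg fun v _ => pow_nonneg (le_max_of_le_left (by linarith [(h v).2])) _
  have h3 : 0 ≤ Nf K κ := by
    unfold Nf
    positivity
  have h4 : 0 ≤ Nf K k := by
    unfold Nf
    positivity
  unfold QB
  positivity

end

open scoped Classical in
theorem pf_QBP (hUP : Pool.Agent.H31.SW.W_UP) (hWL : Pool.Agent.H31.SW.W_WL) (hQI : F_QI)
    (hCG : Pool.Agent.H23.LC.U_CG) (hSY : Pool.Agent.H23.LB.T_SY)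
    (hGX : Pool.Agent.H29.TC.T_GX) : F_QBP := by
  intro n hn
  obtain ⟨B₁, hB₁, hQI'⟩ := hQI n hn
  refine ⟨B₁, hB₁, fun ε ε' hε hε1 hκ hκ1 => ?_⟩
  obtain ⟨C, hC0, hC⟩ := hQI' ε ε' hε hε1 hκ hκ1
  obtain ⟨c₀, hc₀, hc⟩ := hWL n hn
  refine ⟨c₀⁻¹ ^ 2 * C, by positivity,
    fun K _ _ hK l s k κ Y hsk hKq η hη H τ S bl B D v hHτ hPr hcls hLab hspc hD hB hWt => ?_⟩
  have hlk := hsk.lk
  have hY1r : 1 ≤ Y := hsk.one
  have hτ : ∀ v, 1 ≤ τ v := fun v => (hHτ v).2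
  have hf : l * (s * k) ≠ ⊥ := mul_ne_zero (show l ≠ 0 from hlk.l_ne) (show s * k ≠ 0 from hlk.k_ne)
  have h2ne : Ideal.span {(2 : 𝓞 K)} ≠ ⊥ := by
    rw [Ne, Ideal.span_singleton_eq_bot]
    exact two_ne_zero
  have hf2 : Ideal.span {(2 : 𝓞 K)} * l * (s * k) ≠ ⊥ := by
    rw [mul_assoc]
    exact mul_ne_zero (show Ideal.span {(2 : 𝓞 K)} ≠ 0 from h2ne) (show l * (s * k) ≠ 0 from hf)
  have hle : Ideal.span {(2 : 𝓞 K)} * l * (s * k) ≤ l * (s * k) := by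
    rw [mul_assoc]
    exact (Ideal.mul_le_right : Ideal.span {(2 : 𝓞 K)} * (l * (s * k)) ≤ l * (s * k))
  have hNf : Nf K (l * (s * k)) = Nf K l * Nf K (s * k) := by
    unfold Nf
    rw [map_mul]
    push_cast
    rfl
  obtain ⟨Z⟩ := hSY K (l * (s * k)) hf
  have hd1 : 1 ≤ dK K := one_le_disc
  have hl1 := one_le_Nf hlk.l_ne
  have hk1 := one_le_Nf hlk.k_ne
  have hf1 := one_le_Nf hf
  have hr1 : 0 ≤ Nf K k.radical := by
    unfold Nf
    exact Nat.cast_nonneg _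
  have hPP1 : 1 ≤ PP τ := by
    unfold PP
    refine Finset.prod_induction _ (fun x : ℝ => 1 ≤ x)
      (fun a b ha hb => one_le_mul_of_one_le_of_one_le ha hb) le_rfl
      fun v _ => one_le_pow₀ (hτ v)
  have hY1 : 1 ≤ 6 ^ n * (dK K * Nf K l * (Nf K (s * k) * PP τ)) :=
    one_le_mul_of_one_le_of_one_le (one_le_pow₀ (by norm_num))
      (one_le_mul_of_one_le_of_one_le (one_le_mul_of_one_le_of_one_le hd1 hl1)
        (one_le_mul_of_one_le_of_one_le hk1 hPP1))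
  have hX2 : Real.sqrt (6 ^ n * (dK K * Nf K l * (Nf K (s * k) * PP τ))) ^ 2 ≤
      6 ^ n * (dK K * Nf K l * (Nf K (s * k) * PP τ)) := by
    rw [Real.sq_sqrt (by linarith)]
  -- the weights
  have hWt' : ∀ q ∈ S, Wt ε' (Real.sqrt (6 ^ n * (dK K * Nf K l * (Nf K (s * k) * PP τ)))) B (v q) := by
    intro q hq σ hσ
    obtain ⟨g, hg1, hg2, hg3⟩ := hWt q hq σ hσ
    refine ⟨g, hg1, fun y => (hg2 y).trans ?_, hg3⟩
    have hσ0 : 0 ≤ σ := by
      rcases hσ with rfl | rfl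
      · exact hκ.le
      · exact zero_le_one
    have h1 : |(discr K : ℝ)| * Nf K (l * (s * k)) * Ci q.1.k q.1.ν q.2 ≤
        6 ^ n * (dK K * Nf K l * (Nf K (s * k) * PP τ)) := by
      have h2 := Ci_le_PP hK q.1.k q.1.ν q.2 q.1.real_k
      have h3 : PP (fun v => 1 + ‖cpar q.1.k q.1.ν q.2 v‖) ≤ 2 ^ n * PP τ := by
        unfold PP
        rw [← sum_mult hK, ← Finset.prod_pow_eq_pow_sum, ← Finset.prod_mul_distrib]
        refine Finset.prod_le_prod (fun v _ => by positivity) fun v _ => ?_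
        rw [← mul_pow]
        exact pow_le_pow_left₀ (by positivity) ((hcls q hq).upp v) _
      have h4 : (6 : ℝ) ^ n = 3 ^ n * 2 ^ n := by
        rw [← mul_pow]
        norm_num
      have h5 : 0 ≤ |(discr K : ℝ)| * Nf K (l * (s * k)) := by
        have : 0 ≤ Nf K (l * (s * k)) := by linarith
        positivity
      calc |(discr K : ℝ)| * Nf K (l * (s * k)) * Ci q.1.k q.1.ν q.2
          ≤ |(discr K : ℝ)| * Nf K (l * (s * k)) * (3 ^ n * (2 ^ n * PP τ)) := by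
            refine mul_le_mul_of_nonneg_left (h2.trans ?_) h5
            exact mul_le_mul_of_nonneg_left h3 (by positivity)
        _ = _ := by
            rw [h4, hNf]
            unfold dK
            ring
    have h6 := Real.rpow_le_rpow (Real.sqrt_nonneg _) (Real.sqrt_le_sqrt h1) hσ0
    gcongr
  -- the generators and the local components
  have hgen : ∀ i : Z.ι, ∃ x₀ : K, Gn (Ideal.span {(2 : 𝓞 K)} * l * (s * k)) (Z.M i) x₀ := fun i =>
    hGX K _ (Z.M i) hf2 (Z.reps.1 i)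
  choose x₀ hx₀ using hgen
  have hcc : ∀ (q : HG K (l * (s * k)) × ℝ) (i : Z.ι), ∃ c : K → ℂ, q ∈ S →
      (∀ x ∈ Z.M i, ‖c x‖ ≤ 1) ∧ (∀ x ∈ Z.M i, ∀ t ∈ (l : FI K) * Z.M i, c (x + t) = c x) ∧
      ∀ x ∈ Z.M i, cg q.1 (Z.M i) x =
        c x * Pool.Agent.H29.TC.cq (s * k) (η q.1) (Z.M i) (x₀ i) x := by
    intro q i
    by_cases hq : q ∈ S
    · obtain ⟨c, h1, h2, h3⟩ := (hη q.1 (hPr q hq)).2 (Z.M i) (x₀ i) (Z.reps.1 i)
        (Gn_mono hle (hx₀ i))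
      exact ⟨c, fun _ => ⟨h1, h2, h3⟩⟩
    · exact ⟨fun _ => 0, fun h => absurd h hq⟩
  choose cc hcc' using hcc
  have key := hC K hK Z.ι Z.M Z.reps l s k κ Y x₀ H τ (HG K (l * (s * k)) × ℝ) S bl (fun q => η q.1)
    Pool.Agent.H27.TM.cq (Real.sqrt (6 ^ n * (dK K * Nf K l * (Nf K (s * k) * PP τ)))) B D 1 v cc true
    hsk hx₀ hKq hHτ (fun q hq => (hη q.1 (hPr q hq)).1) hcls hLab hspc hD (Real.one_le_sqrt.2 hY1) hX2 hB
    hWt' zero_le_one (fun q hq i => (hcc' q i hq).2.1) (fun q hq i => (hcc' q i hq).1)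
  have hcg : ∀ q ∈ S, ∀ (i : Z.ι) (u : logSpace K × ℝ × (InfinitePlace K → ℝ)),
      ∑' x : {x : K // x ∈ Z.M i ∧ x ≠ 0},
        (cc q i x * Pool.Agent.H29.TC.cq (s * k) (η q.1) (Z.M i) (x₀ i) x) *
          v q (Ideal.absNorm (idl K (Z.M i) x)) *
          pF (fun v => GG (pz (rv v)) (Pool.Agent.H27.TM.cq q v)) (yM K (Z.M i) u.2.1 (zs true u.1))
            (om true u.2.2) x =
      ∑' x : {x : K // x ∈ Z.M i ∧ x ≠ 0}, cg q.1 (Z.M i) x *
        v q (Ideal.absNorm (idl K (Z.M i) x)) *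
          pF (fun v => GG (pz (rv v)) (Pool.Agent.H27.TM.cq q v)) (yM K (Z.M i) u.2.1 (zs true u.1))
            (om true u.2.2) x := by
    intro q hq i u
    refine tsum_congr fun x => ?_
    rw [(hcc' q i hq).2.2 x.1 x.2.1]
  have hone : ∀ q ∈ S, ENNReal.ofReal (c₀ * ‖∑' J : NZI K, q.1.ψ J.1 * v q (Ideal.absNorm J.1) *
      (Ideal.absNorm J.1 : ℂ) ^ (-(q.2 * I : ℂ))‖) ≤
      ∑ i, ∫⁻ u in Fd K ×ˢ (univ : Set ℝ) ×ˢ An K,
        ENNReal.ofReal ‖∑' x : {x : K // x ∈ Z.M i ∧ x ≠ 0},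
          (cc q i x * Pool.Agent.H29.TC.cq (s * k) (η q.1) (Z.M i) (x₀ i) x) *
          v q (Ideal.absNorm (idl K (Z.M i) x)) *
            pF (fun v => GG (pz (rv v)) (Pool.Agent.H27.TM.cq q v))
              (yM K (Z.M i) u.2.1 (zs true u.1)) (om true u.2.2) x‖ := by
    intro q hq
    have hU := hUP K (l * (s * k)) hf q.1 Z.ι Z.M Z.reps
      (fun v => GG (pz (rv v)) (cpar q.1.k q.1.ν q.2 v)) q.2 (v q) (Tf_pz _)
      (Wt_bound (hWt q hq))
    set T : ℂ := ∑' J : NZI K, q.1.ψ J.1 * v q (Ideal.absNorm J.1) *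
      (Ideal.absNorm J.1 : ℂ) ^ (-(q.2 * I : ℂ)) with hTdef
    set W : ℂ := WG K (fun v => GG (pz (rv v)) (cpar q.1.k q.1.ν q.2 v)) q.1.k q.1.ν q.2
      with hWdef
    have hWc : c₀ ≤ ‖W‖ := hc K hK q.1.k q.1.ν q.2 q.1.norm_zero
    have h1 : c₀ * ‖T‖ ≤ ‖(torsionOrder K : ℂ) * W * T‖ := by
      rw [norm_mul, norm_mul, Complex.norm_natCast]
      have h2 : (1 : ℝ) ≤ (torsionOrder K : ℝ) := one_le_tor
      have h3 : 0 ≤ ‖W‖ * ‖T‖ := by positivity
      have h4 : c₀ * ‖T‖ ≤ ‖W‖ * ‖T‖ := by gcongr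
      nlinarith
    refine (ENNReal.ofReal_le_ofReal h1).trans ?_
    rw [← hU]
    refine sum_int_le _ _ _ _ fun i a => ?_
    rw [hcg q hq i a]
    have e : ((q.2 : ℂ) * (a.2.1 : ℂ)) = ((q.2 * a.2.1 : ℝ) : ℂ) := by push_cast; rfl
    rw [norm_mul, norm_mul, norm_mul (ek _ _), ec_norm, ek_norm, e,
      Complex.norm_exp_ofReal_mul_I, one_mul, one_mul, one_mul]
    rfl
  have hHR : 0 ≤ (classNumber K : ℝ) * regulator K :=
    mul_nonneg (Nat.cast_nonneg _) (regulator_pos K).le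
  have hR0 : 0 ≤ C * ((B * 1 * (classNumber K * regulator K)) ^ 2 *
      (D * dK K * (Nf K l * Nf K k.radical * Y)) ^ B₁ * ((Nf K (s * k) * PP τ) ^ ε * QB (s * k) κ τ H ((S.image bl).card : ℝ))) := by
    have h1 : 0 ≤ (D * dK K * (Nf K l * Nf K k.radical * Y)) ^ B₁ := by
      refine Real.rpow_nonneg (mul_nonneg (mul_nonneg (by linarith) (by linarith))
        (mul_nonneg (mul_nonneg (by linarith) hr1) (by linarith))) _
    have h2 : 0 ≤ (Nf K (s * k) * PP τ) ^ ε * QB (s * k) κ τ H ((S.image bl).card : ℝ) :=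
      mul_nonneg (Real.rpow_nonneg (mul_nonneg (by linarith) (by linarith)) _)
        (QB_nonneg (s * k) κ hHτ (Nat.cast_nonneg _))
    positivity
  have hsum : ∑ q ∈ S, (c₀ * ‖∑' J : NZI K, q.1.ψ J.1 * v q (Ideal.absNorm J.1) *
      (Ideal.absNorm J.1 : ℂ) ^ (-(q.2 * I : ℂ))‖) ^ 2 ≤
      C * ((B * 1 * (classNumber K * regulator K)) ^ 2 *
      (D * dK K * (Nf K l * Nf K k.radical * Y)) ^ B₁ * ((Nf K (s * k) * PP τ) ^ ε * QB (s * k) κ τ H ((S.image bl).card : ℝ))) := by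
    rw [← ENNReal.ofReal_le_ofReal_iff hR0, ENNReal.ofReal_sum_of_nonneg
      (fun q _ => by positivity)]
    refine le_trans (Finset.sum_le_sum fun q hq => ?_) (key.trans (le_of_eq (by ring_nf)))
    rw [ENNReal.ofReal_pow (by positivity)]
    exact pow_le_pow_left₀ zero_le (hone q hq) 2
  have hfin : ∑ q ∈ S, ‖∑' J : NZI K, q.1.ψ J.1 * v q (Ideal.absNorm J.1) *
      (Ideal.absNorm J.1 : ℂ) ^ (-(q.2 * I : ℂ))‖ ^ 2 = c₀⁻¹ ^ 2 *
      ∑ q ∈ S, (c₀ * ‖∑' J : NZI K, q.1.ψ J.1 * v q (Ideal.absNorm J.1) *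
      (Ideal.absNorm J.1 : ℂ) ^ (-(q.2 * I : ℂ))‖) ^ 2 := by
    rw [Finset.mul_sum]
    refine Finset.sum_congr rfl fun q _ => ?_
    rw [mul_pow, ← mul_assoc (c₀⁻¹ ^ 2), ← mul_pow, inv_mul_cancel₀ hc₀.ne', one_pow, one_mul]
  rw [hfin]
  refine (mul_le_mul_of_nonneg_left hsum (by positivity)).trans (le_of_eq ?_)
  ring

end Pool.Agent.H18.DF.QBP
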