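import Pool.Agent.H23.DF.TargetsA
import Pool.Agent.H86.DMQ.QH

/-!
# (QH) the moments of the orders between `2` and `12` over a family of boxes, friable conductors
-/

set_option autoImplicit false

open NumberField NumberField.InfinitePlace MeasureTheory Set Filter Complex
open scoped nonZeroDivisors ENNReal

namespace Pool.Agent.H18.DF.QH

open Pool.Agent.H25.HK Pool.Agent.H23.LB Pool.Agent.H23.LC
open Pool.Agent.H29.DW (PrG)
open Pool.Agent.H31.SW (PP dK)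
open Pool.Agent.H31.SX (LK)
open Pool.Agent.H27.TM (Cls Sp1 InT cq)
open Pool.Agent.H23.DM (Clq)
open Pool.Agent.H23.DF (SK Kq F_QT F_TW F_QH)
open Pool.Agent.H86.DMQ.QH (interp)

theorem pf_QH (hQT : F_QT) (hTW : F_TW) : F_QH := by
  intro n hn
  obtain ⟨B₁, hB₁, h1⟩ := hQT n hn
  obtain ⟨B₂, hB₂, h2⟩ := hTW n hn
  refine ⟨B₁ + B₂, by positivity, fun ε hε hε1 => ?_⟩
  obtain ⟨C₁, hC₁, h3⟩ := h1 ε hε hε1
  obtain ⟨C₂, hC₂, h4⟩ := h2 ε hε hε1
  refine ⟨(1 + C₁) * (1 + C₂), by positivity, ?_⟩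
  intro K _ _ hK l s k κ Y hsk hκ Z L hL H T S bl p hT hPr hin hsp hbl hp2 hp12
  have hlk := hsk.lk
  have hY1 : 1 ≤ Y := hsk.one
  have h5 := h3 K hK l s k κ Y hsk hκ Z L hL H T S bl hT hPr hin hsp hbl
  have hT1 : ∀ v, 1 ≤ T v := fun v => (one_le_pow₀ (hT v).1).trans (hT v).2
  have h6 := h4 K hK l s k Y hsk Z L hL T S hT1 hPr hin hsp
  have h7 := interp S (fun q => ‖L q.1 (1 / 2 + q.2 * I)‖) (fun q _ => norm_nonneg _) hp2 hp12
  set a : ℝ := (12 - p) / 10 with ha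
  set b : ℝ := (p - 2) / 10 with hb
  have ha0 : 0 ≤ a := by rw [ha]; linarith
  have hb0 : 0 ≤ b := by rw [hb]; linarith
  have hab : a + b = 1 := by rw [ha, hb]; ring
  -- positivity
  have hN1 : ∀ i : Ideal (𝓞 K), i ≠ ⊥ → 1 ≤ Nf K i := by
    intro i hi
    unfold Nf
    have h8 : Ideal.absNorm i ≠ 0 := fun h => hi (Ideal.absNorm_eq_zero_iff.1 h)
    exact_mod_cast Nat.one_le_iff_ne_zero.2 h8
  have hd : 1 ≤ dK K := by
    unfold dK
    have h8 : discr K ≠ 0 := discr_ne_zero K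
    exact_mod_cast Int.one_le_abs h8
  have hNk := hN1 (s * k) hlk.k_ne
  have hk0 : k ≠ ⊥ := fun h => hlk.k_ne (by rw [h]; exact Ideal.mul_bot s)
  have hNl := hN1 l hlk.l_ne
  have hNr := hN1 k.radical fun h => hk0 (le_bot_iff.1 (Ideal.le_radical.trans h.le))
  have hNκ : 0 ≤ Nf K κ := by
    unfold Nf
    positivity
  have hPT : 1 ≤ PP T := by
    unfold PP
    calc (1 : ℝ) = ∏ _v : InfinitePlace K, (1 : ℝ) := by rw [Finset.prod_const_one]
      _ ≤ _ := Finset.prod_le_prod (fun _ _ => zero_le_one) fun v _ => one_le_pow₀ (hT1 v)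
  have hPH : 0 ≤ PP H := by
    unfold PP
    exact Finset.prod_nonneg fun v _ => pow_nonneg (zero_le_one.trans (hT v).1) _
  set Δ : ℝ := dK K * (Nf K l * Nf K k.radical * Y) with hΔ
  set W : ℝ := Nf K (s * k) * PP T with hW
  set Q : ℝ := ((S.image bl).card : ℝ) * (Nf K κ * PP H) + ((S.image bl).card : ℝ) ^ (1 / 2 : ℝ) *
          (W / (Nf K κ * PP H) ^ 2) with hQ
  have hΔ1 : 1 ≤ Δ := one_le_mul_of_one_le_of_one_le hd
    (one_le_mul_of_one_le_of_one_le (one_le_mul_of_one_le_of_one_le hNl hNr) hY1)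
  have hW1 : 1 ≤ W := one_le_mul_of_one_le_of_one_le hNk hPT
  have hΔ0 : 0 < Δ := by linarith
  have hW0 : 0 < W := by linarith
  have hQ0 : 0 ≤ Q := by positivity
  have hS1 : 0 ≤ ∑ q ∈ S, ‖L q.1 (1 / 2 + q.2 * I)‖ ^ 2 := Finset.sum_nonneg fun q _ => by positivity
  have hS2 : 0 ≤ ∑ q ∈ S, ‖L q.1 (1 / 2 + q.2 * I)‖ ^ 12 :=
    Finset.sum_nonneg fun q _ => by positivity
  have hC : C₁ ^ a * C₂ ^ b ≤ (1 + C₁) * (1 + C₂) := by
    have e1 : C₁ ^ a ≤ 1 + C₁ := by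
      calc C₁ ^ a ≤ (1 + C₁) ^ a := Real.rpow_le_rpow hC₁ (by linarith) ha0
        _ ≤ (1 + C₁) ^ (1 : ℝ) := Real.rpow_le_rpow_of_exponent_le (by linarith) (by linarith)
        _ = 1 + C₁ := Real.rpow_one _
    have e2 : C₂ ^ b ≤ 1 + C₂ := by
      calc C₂ ^ b ≤ (1 + C₂) ^ b := Real.rpow_le_rpow hC₂ (by linarith) hb0
        _ ≤ (1 + C₂) ^ (1 : ℝ) := Real.rpow_le_rpow_of_exponent_le (by linarith) (by linarith)
        _ = 1 + C₂ := Real.rpow_one _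
    exact mul_le_mul e1 e2 (by positivity) (by positivity)
  have hD : Δ ^ (B₁ * a) * Δ ^ (B₂ * b) ≤ Δ ^ (B₁ + B₂) := by
    rw [← Real.rpow_add hΔ0]
    refine Real.rpow_le_rpow_of_exponent_le hΔ1 ?_
    have ha1 : a ≤ 1 := by linarith
    have hb1 : b ≤ 1 := by linarith
    nlinarith
  have hWW : W ^ (ε * a) * W ^ ((2 + ε) * b) = W ^ ((p - 2) / 5 + ε) := by
    rw [← Real.rpow_add hW0]
    congr 1
    have e1 : (2 + ε) * b = 2 * b + ε * b := by ring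
    have e2 : ε * a + ε * b = ε := by rw [← mul_add, hab, mul_one]
    have e3 : 2 * b = (p - 2) / 5 := by rw [hb]; ring
    linarith
  clear_value Q W Δ
  calc ∑ q ∈ S, ‖L q.1 (1 / 2 + q.2 * I)‖ ^ p
      ≤ (∑ q ∈ S, ‖L q.1 (1 / 2 + q.2 * I)‖ ^ 2) ^ a *
        (∑ q ∈ S, ‖L q.1 (1 / 2 + q.2 * I)‖ ^ 12) ^ b := h7
    _ ≤ (C₁ * (Δ ^ B₁ * W ^ ε * Q)) ^ a * (C₂ * (Δ ^ B₂ * W ^ (2 + ε))) ^ b := by
        refine mul_le_mul (Real.rpow_le_rpow hS1 h5 ha0) (Real.rpow_le_rpow hS2 h6 hb0)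
          (by positivity) (by positivity)
    _ = (C₁ ^ a * C₂ ^ b) * ((Δ ^ (B₁ * a) * Δ ^ (B₂ * b)) *
          (W ^ (ε * a) * W ^ ((2 + ε) * b)) * Q ^ a) := by
        rw [Real.mul_rpow hC₁ (by positivity), Real.mul_rpow (by positivity) hQ0,
          Real.mul_rpow (by positivity) (by positivity), Real.mul_rpow hC₂ (by positivity),
          Real.mul_rpow (by positivity) (by positivity), ← Real.rpow_mul hΔ0.le,
          ← Real.rpow_mul hW0.le, ← Real.rpow_mul hΔ0.le, ← Real.rpow_mul hW0.le]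
        ring
    _ ≤ ((1 + C₁) * (1 + C₂)) * (Δ ^ (B₁ + B₂) * W ^ ((p - 2) / 5 + ε) * Q ^ a) := by
        rw [hWW]
        refine mul_le_mul hC ?_ (by positivity) (by positivity)
        exact mul_le_mul_of_nonneg_right (mul_le_mul_of_nonneg_right hD (by positivity))
          (by positivity)

end Pool.Agent.H18.DF.QH
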