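import Pool.Agent.H23.DF.TargetsA
import Pool.Agent.H31.SX.TargetsD
import Pool.Agent.H19.TMB.LT
import Pool.Agent.H70.SM.LT
import Pool.Agent.H54.DM.LT

/-! Board dmf_modules, module QL: the mean square of a class over a family of boxes, friable
conductors (after Pool/Agent/H40/DMQ/QL.lean). -/

set_option autoImplicit false
set_option linter.unusedVariables false
set_option linter.unusedSectionVars false

open NumberField NumberField.InfinitePlace NumberField.Units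
  NumberField.Units.dirichletUnitTheorem MeasureTheory Set Filter Complex
open scoped nonZeroDivisors ENNReal

namespace Pool.Agent.H18.DF.QL

open Pool.Agent.H25.HK Pool.Agent.H23.LB Pool.Agent.H23.LC
open Pool.Agent.H23.DM (SpE LoC Lab QB Clq D_QN D_SP)
open Pool.Agent.H23.DF (SK Kq F_QBP F_QBQ F_QL)
open Pool.Agent.H31.SW (PP dK)
open Pool.Agent.H31.SX (LK X_SG)
open Pool.Agent.H29.DW (cpar Ci Wt one_le_Ci V_AE V_GH PrG)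
open Pool.Agent.H29.TC (Gn LC)
open Pool.Agent.H27.TM (Cls Sp1)

section

variable {K : Type} [Field K] [NumberField K]

private theorem one_le_Nf {f : Ideal (𝓞 K)} (hf : f ≠ ⊥) : 1 ≤ Nf K f := by
  unfold Nf
  have h : Ideal.absNorm f ≠ 0 := fun h => hf (Ideal.absNorm_eq_zero_iff.1 h)
  exact_mod_cast Nat.one_le_iff_ne_zero.2 h

private theorem one_le_discr : 1 ≤ |(discr K : ℝ)| := by
  have h : (1 : ℤ) ≤ |discr K| := Int.one_le_abs (discr_ne_zero K)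
  have h2 : ((1 : ℤ) : ℝ) ≤ ((|discr K| : ℤ) : ℝ) := by exact_mod_cast h
  simpa using h2

end

/-- the numbers -/
theorem num {d a b h C C₄ C₅ B₀ B₁ B₂ P : ℝ} (hd : 1 ≤ d) (ha : 1 ≤ a) (hb : 1 ≤ b) (hh : 0 ≤ h)
    (hC : 0 ≤ C) (hC₄ : 0 ≤ C₄) (hC₅ : 1 ≤ C₅) (hB₀ : 0 ≤ B₀) (hB₁ : 0 ≤ B₁) (hP : 0 ≤ P)
    (hB₂ : 3 + 4 * B₁ ≤ B₂) (hR : h ≤ C₄ * d ^ (3 / 2 : ℝ)) :
    C * ((B₀ * h) ^ 2 * (C₅ * (d * a) ^ 3 * d * (a * b)) ^ B₁ * P) ≤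
      C * (B₀ * C₄) ^ 2 * C₅ ^ B₁ * ((d * (a * b)) ^ B₂ * P) := by
  have hab : 1 ≤ a * b := one_le_mul_of_one_le_of_one_le ha hb
  have hd0 : 0 < d := by linarith
  have ha0 : 0 < a := by linarith
  have hab0 : 0 < a * b := by linarith
  have h0 := Pool.Agent.H70.SM.LT.num (B₂ := B₂) (P := P) hd hab hh hC hC₄ hC₅ hB₀ hB₁ hP hB₂ hR
  refine le_trans ?_ h0
  have h1 : C₅ * (d * a) ^ 3 * d * (a * b) ≤ C₅ * (d * (a * b)) ^ 3 * d * (a * b) := by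
    have h2 : d * a ≤ d * (a * b) := by
      apply mul_le_mul_of_nonneg_left _ hd0.le
      exact le_mul_of_one_le_right ha0.le hb
    have h3 : (d * a) ^ 3 ≤ (d * (a * b)) ^ 3 := pow_le_pow_left₀ (by positivity) h2 3
    have h5 : 0 ≤ C₅ := by linarith
    gcongr
  have h4 : (C₅ * (d * a) ^ 3 * d * (a * b)) ^ B₁ ≤
      (C₅ * (d * (a * b)) ^ 3 * d * (a * b)) ^ B₁ := by
    apply Real.rpow_le_rpow _ h1 hB₁
    have h5 : 0 ≤ C₅ := by linarith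
    positivity
  have h6 : 0 ≤ (B₀ * h) ^ 2 := by positivity
  gcongr

theorem pf_QL (hQBP : F_QBP) (hQBQ : F_QBQ) (hQN : D_QN) (hSP : D_SP)
    (hSG : Pool.Agent.H31.SX.X_SG) (hAE : V_AE) (hGH : V_GH) (hHR : Pool.Agent.H29.TC.T_HR)
    (hDS : T_DS) (hDC : U_DC) (hGE : U_GE) : F_QL := by
  intro n hn0
  obtain ⟨B₁, hB₁, hP⟩ := hQBP n hn0
  obtain ⟨B₂, hB₂, hQ⟩ := hQBQ n hn0
  obtain ⟨C₅, hC₅, hS⟩ := hSP n hn0
  obtain ⟨C₀, hC₀, hA⟩ := hAE n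
  obtain ⟨C₃, hC₃, hG⟩ := hGH n
  obtain ⟨C₄, hR⟩ := hHR n 1 one_pos
  refine ⟨3 + 4 * (B₁ + B₂), by positivity, fun ε hε hε1 => ?_⟩
  obtain ⟨ε', hε'⟩ : ∃ ε' : ℝ, ε' = ε / 24 := ⟨_, rfl⟩
  have hκ0 : 0 < ε' := by rw [hε']; positivity
  have hκ1 : ε' ≤ 1 := by rw [hε']; linarith
  obtain ⟨C₁, hC₁, hP⟩ := hP ε ε' hε hε1 hκ0 hε'.le
  obtain ⟨C₂, hC₂, hQ⟩ := hQ ε ε' hε hε1 hκ0 hε'.le
  obtain ⟨B₀, hB₀d⟩ : ∃ B₀ : ℝ, B₀ = C₀ * ε'⁻¹ * max 1 C₃ := ⟨_, rfl⟩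
  have hB₀ : 0 ≤ B₀ := by
    rw [hB₀d]
    have := le_max_left 1 C₃
    positivity
  obtain ⟨C₆, hC₆⟩ : ∃ C₆ : ℝ, C₆ = max 0 C₄ := ⟨_, rfl⟩
  have hC₆0 : 0 ≤ C₆ := by rw [hC₆]; exact le_max_left _ _
  refine ⟨2 * (C₁ * (B₀ * C₆) ^ 2 * C₅ ^ B₁ + C₂ * (B₀ * C₆) ^ 2 * C₅ ^ B₂), ?_, ?_⟩
  · have : 0 ≤ C₅ := by linarith
    positivity
  intro K _ _ hn l s k κ Y hsk hKq Z L hL H τ S bl hHτ hpr hcls hsp hbl
  have hlk := hsk.lk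
  have hY1 : 1 ≤ Y := hsk.one
  obtain ⟨η, hη⟩ := Pool.Agent.H54.DM.LT.exists_LoC hSG hlk
  have hl0 : l ≠ ⊥ := hlk.l_ne
  have hsk0 : s * k ≠ ⊥ := hlk.k_ne
  have hk0 : k ≠ ⊥ := fun h => hsk0 (by rw [h]; exact Ideal.mul_bot s)
  have hf0 : l * (s * k) ≠ ⊥ := mul_ne_zero hl0 hsk0
  have hr0 : k.radical ≠ ⊥ := fun h => hk0 (le_bot_iff.1 (h ▸ Ideal.le_radical))
  have hkκ : s * k ≤ κ := hKq.le
  have hκ0' : κ ≠ ⊥ := fun h => hsk0 (le_bot_iff.1 (h ▸ hkκ))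
  have hd1 : 1 ≤ dK K := one_le_discr (K := K)
  have hl1 := one_le_Nf hl0
  have hr1 := one_le_Nf hr0
  have hk1 := one_le_Nf hsk0
  have hκ1' := one_le_Nf hκ0'
  have hPH : 0 ≤ PP H := by
    unfold PP
    exact Finset.prod_nonneg fun v _ => pow_nonneg (by linarith [(hHτ v).1]) _
  have hPM : 0 ≤ PP (fun v => max (τ v) (H v ^ 3)) := by
    unfold PP
    exact Finset.prod_nonneg fun v _ => pow_nonneg
      ((by linarith [(hHτ v).2] : (0 : ℝ) ≤ τ v).trans (le_max_left _ _)) _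
  obtain ⟨P, hPd⟩ : ∃ P : ℝ, P = (Nf K (s * k) * PP τ) ^ ε * QB (s * k) κ τ H ((S.image bl).card : ℝ) :=
    ⟨_, rfl⟩
  have hP0 : 0 ≤ P := by
    rw [hPd]
    apply mul_nonneg
    · apply Real.rpow_nonneg
      apply mul_nonneg (by linarith)
      unfold PP
      exact Finset.prod_nonneg fun v _ => pow_nonneg (by linarith [(hHτ v).2]) _
    · unfold QB
      positivity
  have key : ∀ q : HG K (l * (s * k)) × ℝ, ∃ v v' : ℝ → ℂ,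
      Wt ε' (Real.sqrt (|(discr K : ℝ)| * Nf K (l * (s * k)) * Ci q.1.k q.1.ν q.2)) B₀ v ∧
      Wt ε' (Real.sqrt (|(discr K : ℝ)| * Nf K (l * (s * k)) * Ci q.1.k q.1.ν q.2)) B₀ v' ∧
      L q.1 (1 / 2 + q.2 * I) =
        ∑' J : NZI K, q.1.ψ J.1 * v (Ideal.absNorm J.1) *
          (Ideal.absNorm J.1 : ℂ) ^ (-(q.2 * I : ℂ)) +
        ∑' J : NZI K, cd Z q.1 J.1 * v' (Ideal.absNorm J.1) *
          (Ideal.absNorm J.1 : ℂ) ^ (q.2 * I : ℂ) := by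
    intro q
    rw [hB₀d]
    exact Pool.Agent.H19.TMB.LT.split n ε' C₀ C₃ hC₀ hκ0 hκ1 hA hG hDS hDC hGE hn hf0 Z q.1
      (L q.1) (hL q.1) q.2
  choose v v' hv hv' hsplit using key
  obtain ⟨D, hD⟩ : ∃ D : ℝ, D = C₅ * (dK K * Nf K l) ^ 3 := ⟨_, rfl⟩
  have hdN : 1 ≤ dK K * Nf K l := one_le_mul_of_one_le_of_one_le hd1 hl1
  have hD1 : 1 ≤ D := by
    rw [hD]
    exact one_le_mul_of_one_le_of_one_le hC₅ (one_le_pow₀ hdN)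
  have hspc : SpE S (fun q => η q.1) Pool.Agent.H27.TM.cq D := by
    rw [hD]
    exact hS K hn l (s * k) hlk η hη S hsp hpr
  have hlab : Lab κ S bl (fun q => η q.1) Pool.Agent.H27.TM.cq H := by
    intro p hp q hq hpq
    exact hQN K l (s * k) κ hlk hkκ η hη H p q (hpr p hp) (hpr q hq) (hbl p hp q hq hpq)
  have hp1 := hP K hn l s k κ Y hsk hKq η hη H τ S bl B₀ D v hHτ hpr hcls hlab hspc hD1 hB₀
    (fun q _ => hv q)
  have hq1 := hQ K hn l s k κ Y hsk hKq η hη Z H τ S bl B₀ D v' hHτ hpr hcls hlab hspc hD1 hB₀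
    (fun q _ => hv' q)
  have hreg : 0 < regulator K := regulator_pos K
  have hh0 : 0 ≤ (classNumber K : ℝ) * regulator K := by positivity
  have hR' : (classNumber K : ℝ) * regulator K ≤ C₆ * dK K ^ (3 / 2 : ℝ) := by
    refine (hR K hn).trans ?_
    have e1 : (1 / 2 + 1 : ℝ) = 3 / 2 := by norm_num
    rw [e1, hC₆]
    unfold dK
    gcongr
    exact le_max_right _ _
  have hrY : 1 ≤ Nf K k.radical * Y := one_le_mul_of_one_le_of_one_le hr1 hY1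
  rw [hD, mul_assoc (Nf K l) (Nf K k.radical) Y, mul_assoc _ ((Nf K (s * k) * PP τ) ^ ε) (QB (s * k) κ τ H ((S.image bl).card : ℝ)), ← hPd]
    at hp1 hq1
  have hp2 := hp1.trans (num (B₂ := 3 + 4 * (B₁ + B₂)) hd1 hl1 hrY hh0 hC₁ hC₆0 hC₅ hB₀ hB₁
    hP0 (by linarith) hR')
  have hq2 := hq1.trans (num (B₂ := 3 + 4 * (B₁ + B₂)) hd1 hl1 hrY hh0 hC₂ hC₆0 hC₅ hB₀ hB₂
    hP0 (by linarith) hR')
  have hsum : ∑ q ∈ S, ‖L q.1 (1 / 2 + q.2 * I)‖ ^ 2 ≤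
      2 * (∑ q ∈ S, ‖∑' J : NZI K, q.1.ψ J.1 * v q (Ideal.absNorm J.1) *
          (Ideal.absNorm J.1 : ℂ) ^ (-(q.2 * I : ℂ))‖ ^ 2 +
        ∑ q ∈ S, ‖∑' J : NZI K, cd Z q.1 J.1 * v' q (Ideal.absNorm J.1) *
          (Ideal.absNorm J.1 : ℂ) ^ (q.2 * I : ℂ)‖ ^ 2) := by
    rw [← Finset.sum_add_distrib, Finset.mul_sum]
    refine Finset.sum_le_sum fun q _ => ?_
    rw [hsplit q]
    refine (pow_le_pow_left₀ (norm_nonneg _) (norm_add_le _ _) 2).trans ?_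
    exact add_sq_le
  calc ∑ q ∈ S, ‖L q.1 (1 / 2 + q.2 * I)‖ ^ 2 ≤ _ := hsum
    _ ≤ 2 * (C₁ * (B₀ * C₆) ^ 2 * C₅ ^ B₁ *
          ((dK K * (Nf K l * (Nf K k.radical * Y))) ^ (3 + 4 * (B₁ + B₂)) * P) +
        C₂ * (B₀ * C₆) ^ 2 * C₅ ^ B₂ *
          ((dK K * (Nf K l * (Nf K k.radical * Y))) ^ (3 + 4 * (B₁ + B₂)) * P)) :=
        mul_le_mul_of_nonneg_left (add_le_add hp2 hq2) (by positivity)
    _ = _ := by
        rw [hPd, mul_assoc (Nf K l) (Nf K k.radical) Y]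
        ring

end Pool.Agent.H18.DF.QL
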